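import Pool.Agent.H484.AL.Stm

/-!
# Project AL (helper484), task CHEB
-/

set_option autoImplicit false

namespace Pool.Agent.H484.AL

open Finset
open scoped Classical

theorem t_CHEB (hM2 : S_M2) (hLK : S_LK) : S_CHEB := by
  intro e he
  refine ⟨20 + 8 * 2 ^ (e + 1) + 16 * 3 ^ (e + 1) * 4 ^ (e + 1), by positivity, ?_⟩
  intro B g M a0 J α hR t ht
  have hBn : 0 < B := by have := hR.hB; omega
  have hB : (0 : ℝ) < B := by exact_mod_cast hBn
  have hJ : (0 : ℝ) < J := by exact_mod_cast (lt_of_lt_of_le Nat.zero_lt_one hR.hJ)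
  have hMpos : 0 < M := by
    rcases Nat.eq_zero_or_pos M with h | h
    · exfalso
      have h1 := hR.hN
      rw [h, mul_zero] at h1
      have : 0 < B ^ (40 * e * J) := pow_pos hBn _
      omega
    · exact h
  have hM : (0 : ℝ) < M := by exact_mod_cast hMpos
  obtain ⟨A, hA⟩ : ∃ A, A = AA e g M B J α t := ⟨_, rfl⟩
  obtain ⟨β, hβ⟩ : ∃ β : ℝ, β = (B : ℝ) ^ t := ⟨_, rfl⟩
  obtain ⟨D, hD⟩ : ∃ D : ℝ, D = (2 * (J : ℝ)) ^ e := ⟨_, rfl⟩
  have hβ0 : 0 < β := by rw [hβ]; positivity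
  have hD0 : 0 < D := by rw [hD]; positivity
  have hcard : ((jset e J).card : ℝ) = D := by
    have h1 : (jset e J).card = (2 * J) ^ e := by
      unfold jset
      rw [Fintype.card_piFinset]
      simp only [Nat.card_Ico, Finset.prod_const, Finset.card_univ, Fintype.card_fin]
      congr 1
      omega
    rw [h1, hD]
    push_cast
    ring
  have hAlow : D / (2 ^ (e + 1) * β) ≤ A := by
    calc D / (2 ^ (e + 1) * β) = ∑ j ∈ jset e J, 1 / (2 ^ (e + 1) * β) := by
          rw [Finset.sum_const, nsmul_eq_mul, hcard]; ring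
      _ ≤ A := by
          rw [hA, AA]
          refine Finset.sum_le_sum fun j hj => ?_
          have h1 := (hLK e B g M a0 J α hR t j ht hj).2
          have h2 : (M : ℝ) ≤ 2 ^ (e + 1) * (β * (((Lset e g B α j).card : ℝ) *
              (kap e (g * M) B t j : ℝ))) := by
            rw [hβ]
            exact_mod_cast h1
          rw [div_le_div_iff₀ (by positivity) hM]
          nlinarith
  have hA0 : 0 < A := lt_of_lt_of_le (by positivity) hAlow
  -- Chebyshev
  have hm := hM2 e B g M a0 J α hR t ht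
  rw [← hA, ← hβ, ← hD] at hm
  rw [← hβ, ← hD]
  set S := univ.filter (fun b : Fin e → Fin M =>
      β * Mt e g M a0 B J α (fun i => (b i : ℕ)) t < D / 2 ^ (e + 2)) with hS
  have h1 : (S.card : ℝ) * (A ^ 2 / 4) ≤
      ∑ b : Fin e → Fin M, (Mt e g M a0 B J α (fun i => (b i : ℕ)) t - A) ^ 2 := by
    calc (S.card : ℝ) * (A ^ 2 / 4) = ∑ b ∈ S, A ^ 2 / 4 := by
          rw [Finset.sum_const, nsmul_eq_mul]
      _ ≤ ∑ b ∈ S, (Mt e g M a0 B J α (fun i => (b i : ℕ)) t - A) ^ 2 := by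
          refine Finset.sum_le_sum fun b hb => ?_
          have hb' : β * Mt e g M a0 B J α (fun i => (b i : ℕ)) t < D / 2 ^ (e + 2) :=
            (Finset.mem_filter.1 hb).2
          have h2 : Mt e g M a0 B J α (fun i => (b i : ℕ)) t < A / 2 := by
            have h3 : Mt e g M a0 B J α (fun i => (b i : ℕ)) t < D / 2 ^ (e + 2) / β := by
              rw [lt_div_iff₀ hβ0]
              linarith
            have h4 : D / 2 ^ (e + 2) / β = D / (2 ^ (e + 1) * β) / 2 := by
              rw [div_div, div_div]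
              congr 1
              ring
            rw [h4] at h3
            linarith
          have h5 : A / 2 ≤ A - Mt e g M a0 B J α (fun i => (b i : ℕ)) t := by linarith
          nlinarith
      _ ≤ _ := by
          refine Finset.sum_le_univ_sum_of_nonneg fun b => sq_nonneg _
  have hMe : (0 : ℝ) < (M : ℝ) ^ e := by positivity
  have hBJ : (0 : ℝ) < (B : ℝ) ^ J := by positivity
  have h6 : (S.card : ℝ) ≤ 4 * (5 / (B : ℝ) ^ J + 2 / A +
      4 * 3 ^ (e + 1) * D / β / A ^ 2) * (M : ℝ) ^ e := by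
    have h7 := le_trans h1 hm
    have h8 : (5 * A ^ 2 / (B : ℝ) ^ J + 2 * A + 4 * 3 ^ (e + 1) * D / β) * (M : ℝ) ^ e
        = (4 * (5 / (B : ℝ) ^ J + 2 / A + 4 * 3 ^ (e + 1) * D / β / A ^ 2) * (M : ℝ) ^ e)
          * (A ^ 2 / 4) := by
      field_simp
    rw [h8] at h7
    exact le_of_mul_le_mul_right h7 (by positivity)
  have h9 : 1 / A ≤ 2 ^ (e + 1) * β / D := by
    rw [div_le_div_iff₀ hA0 hD0]
    rw [div_le_iff₀ (by positivity)] at hAlow
    linarith
  have hDJ : (J : ℝ) ^ e ≤ D := by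
    rw [hD]
    exact pow_le_pow_left₀ hJ.le (by linarith) e
  have hJe : (0 : ℝ) < (J : ℝ) ^ e := by positivity
  have h10 : β / D ≤ β / (J : ℝ) ^ e := div_le_div_of_nonneg_left hβ0.le hJe hDJ
  have h11 : D / β / A ^ 2 ≤ 4 ^ (e + 1) * (β / D) := by
    have h12 : (1 / A) ^ 2 ≤ (2 ^ (e + 1) * β / D) ^ 2 :=
      pow_le_pow_left₀ (by positivity) h9 2
    calc D / β / A ^ 2 = D / β * (1 / A) ^ 2 := by rw [one_div, inv_pow, ← div_eq_mul_inv]
      _ ≤ D / β * (2 ^ (e + 1) * β / D) ^ 2 := mul_le_mul_of_nonneg_left h12 (by positivity)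
      _ = (2 ^ (e + 1)) ^ 2 * (β / D) := by field_simp
      _ = 4 ^ (e + 1) * (β / D) := by
          congr 1
          rw [← pow_mul, mul_comm, pow_mul]
          norm_num
  have h13 : 2 / A ≤ 2 * (2 ^ (e + 1) * (β / (J : ℝ) ^ e)) := by
    have : 2 / A = 2 * (1 / A) := by ring
    rw [this]
    refine mul_le_mul_of_nonneg_left (le_trans h9 ?_) (by norm_num)
    rw [mul_div_assoc]
    exact mul_le_mul_of_nonneg_left h10 (by positivity)
  have h14 : 4 * 3 ^ (e + 1) * D / β / A ^ 2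
      ≤ 4 * 3 ^ (e + 1) * (4 ^ (e + 1) * (β / (J : ℝ) ^ e)) := by
    have : 4 * 3 ^ (e + 1) * D / β / A ^ 2 = 4 * 3 ^ (e + 1) * (D / β / A ^ 2) := by ring
    rw [this]
    refine mul_le_mul_of_nonneg_left (le_trans h11 ?_) (by positivity)
    exact mul_le_mul_of_nonneg_left h10 (by positivity)
  refine le_trans h6 ?_
  refine mul_le_mul_of_nonneg_right ?_ hMe.le
  have hx : 0 ≤ 1 / (B : ℝ) ^ J := by positivity
  have hy : 0 ≤ β / (J : ℝ) ^ e := by positivity
  have h15 : 5 / (B : ℝ) ^ J = 5 * (1 / (B : ℝ) ^ J) := by ring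
  rw [h15]
  have p1 : (0 : ℝ) ≤ 2 ^ (e + 1) := by positivity
  have p2 : (0 : ℝ) ≤ 3 ^ (e + 1) * 4 ^ (e + 1) := by positivity
  nlinarith [mul_nonneg p1 hx, mul_nonneg p2 hx, mul_nonneg p1 hy, mul_nonneg p2 hy]

end Pool.Agent.H484.AL
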